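import Pool.Agent.H40.Bspt4

open Pool.Agent.H40.Bspt in
theorem Pool.Agent.Results.MP_d5d48f_lc.Extends.result :
    ∀ (M : Type) [Countable M] (E : M → M → Prop), IsZF E →
      ∃ (N : Type) (E' : N → N → Prop) (j : M → N), Function.Injective j ∧
        (∀ a b, E' (j a) (j b) ↔ E a b) ∧ BSPT E' (Set.range j) :=
  fun _ _ _ => main
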